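import Pool.Agent.H913.AV.Final

/-! MP_d9e438_al, Q1 (affirmative answer): the Sobolev averaging map `Φ(s, [p]) = [p_s^G]` is
continuous on `[0, ∞) × Norm(V, w)` for the topology defined by the pseudometric `d`; it is even
`1`-Lipschitz for the sum metric. All definitions are in `Pool.Agent.H913.SGP.Definitions` and
`Pool.Agent.H913.AVP.Definitions`. -/

open Pool.Agent.H913.SGP Pool.Agent.H913.AVP

universe u

namespace Pool.Agent.Results.MP_d9e438_al.AveragingContinuous

/-- For every real reductive group `G`, every orthonormal basis `b` of `𝔨` for an `Ad(K)`-invariant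
inner product (which defines the Laplacian `Δ_K`), every weight `w` and every Harish-Chandra module
`V`: the operators `(1 + Δ_K)^(s/2)` exist and are unique, the sets defining `d` are nonempty, the values
`p_s(g • v)` are well defined for `s ≥ 0`, and `d` is a pseudometric on `Norm(V, w)` for which
`Φ(s, p) = p_s^G` is a continuous map `[0, ∞) × Norm(V, w) → Norm(V, w)` with
`d(Φ(s, p), Φ(s', p')) ≤ |s - s'| + d(p, p')`. -/
theorem result (G : Type) [Group G] [TopologicalSpace G] [IsTopologicalGroup G] [T2Space G]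
    [SecondCountableTopology G] (n : ℕ) (GR : Subgroup (Matrix.GeneralLinearGroup (Fin n) ℝ))
    (ρ : G →* Matrix.GeneralLinearGroup (Fin n) ℝ) (hG : IsRealReductive GR ρ) (m : ℕ)
    (b : Fin m → LieAlg GR) (hb : IsInvBasis GR ρ b) (w : G → ℝ) (hw : IsWeight w)
    (V : Type u) [AddCommGroup V] [Module ℂ V] (Mo : HCModule GR ρ V) :
    (∀ s : ℝ, ∃! T : Module.End ℂ V, IsSobolevPow Mo b s T) ∧
    (∀ p q, IsNormIn Mo w p → IsNormIn Mo w q → (dSet Mo b p q).Nonempty) ∧
    (∀ (p : V → ℝ) (s : ℝ) (T : Module.End ℂ V), IsNormIn Mo w p → 0 ≤ s →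
      IsSobolevPow Mo b s T → ∀ g v, ∃! c, IsValue Mo w p T g v c) ∧
    ∃ M : PseudoMetricSpace (NormIn Mo w), (∀ p q, M.dist p q = sdist Mo b p.1 q.1) ∧
      ∃ Φ : {s : ℝ // 0 ≤ s} × NormIn Mo w → NormIn Mo w,
        (∀ s p, (Φ (s, p)).1 = avg Mo b w s.1 p.1) ∧ Continuous Φ ∧
        ∀ s p s' p', dist (Φ (s, p)) (Φ (s', p')) ≤ dist s s' + dist p p' :=
  final hG Mo hb hw

end Pool.Agent.Results.MP_d9e438_al.AveragingContinuous
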